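import Mathlib

/-! Project CY (MP_6efeb4_pr, Q2: typical distance in random Cayley graphs of Abelian groups; `1 ≪ k ≪ log |G|`,
`k - d(G) ≥ c k`; `D = k n^(1/k) / e` directed, `k n^(1/k) / (2e)` undirected). Second moment method. -/

set_option autoImplicit false

namespace Pool.Agent.X34.CY

open Finset

/-- minimal size of a generating set -/
noncomputable def dG (G : Type) [AddCommGroup G] : ℕ :=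
  sInf {m : ℕ | ∃ S : Finset G, S.card = m ∧ AddSubgroup.closure (S : Set G) = ⊤}

/-- (GRP) with `g = gcd v`: `φ z = ∑ v i • z i` has image `⊇ g G` (Bezout), so `|ker φ| |gG| ≤ n^k`, and
`|G/gG| ≤ g^d` (generated by `d` elements killed by `g`). The `min` with `n`: `|ker φ| ≤ n^k`. -/
def S_GRP : Prop := ∀ (G : Type) [AddCommGroup G] [Fintype G] [DecidableEq G] (k : ℕ) (v : Fin k → ℤ),
  v ≠ 0 → (univ.filter fun z : Fin k → G => ∑ i, v i • z i = 0).card * Fintype.card G ≤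
    min ((univ.gcd fun i => (v i).natAbs) ^ dG G) (Fintype.card G) * Fintype.card G ^ k

/-- (SM) second moment: `X(z,u) = #{w ∈ W : w·z = u}`, `∑ X = |W| n^k`, `∑ X² = ∑_{w,w'} #{z : (w-w')·z = 0}`
`≤ n^(k-1) (|W| n + |W|² + ∑_{g=2}^M min(g^d,n) B g |W|)` (GRP; group the pairs `w ≠ w'` by the gcd; gcd 1 gives `|W|²`),
Cauchy-Schwarz `(∑ X)² ≤ ∑ X² · #{X ≠ 0}`, `1/(1+δ) ≥ 1-δ`. -/
def S_SM : Prop := S_GRP → ∀ (G : Type) [AddCommGroup G] [Fintype G] [DecidableEq G] (k : ℕ)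
  (W : Finset (Fin k → ℤ)) (M : ℕ) (B : ℕ → ℕ), W.Nonempty →
  (∀ w ∈ W, ∀ w' ∈ W, w ≠ w' → (univ.gcd fun i => (w i - w' i).natAbs) ≤ M) →
  (∀ g : ℕ, 2 ≤ g → ∀ w ∈ W, (W.filter fun w' => ∀ i, (g : ℤ) ∣ w' i - w i).card ≤ B g) →
  ((univ.filter fun zu : (Fin k → G) × G => ∀ w ∈ W, ∑ i, w i • zu.1 i ≠ zu.2).card : ℝ) ≤
    (Fintype.card G : ℝ) ^ (k + 1) * ((Fintype.card G : ℝ) / W.card +
      ∑ g ∈ Icc 2 M, ((min (g ^ dG G) (Fintype.card G) : ℕ) : ℝ) * (B g : ℝ) / W.card)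

/-- the simplex -/
noncomputable def Wd (k R : ℕ) : Finset (Fin k → ℤ) :=
  (Fintype.piFinset fun _ => Icc (0 : ℤ) R).filter fun w => ∑ i, w i ≤ (R : ℤ)

/-- the `l1` ball -/
noncomputable def Wu (k R : ℕ) : Finset (Fin k → ℤ) :=
  (Fintype.piFinset fun _ => Icc (-(R : ℤ)) R).filter fun w => ∑ i, |w i| ≤ (R : ℤ)

/-- (L1) the number of lattice points of the `l1` ball: nonzero coordinates `≤ s`, signs `2^s` -/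
def S_L1 : Prop := ∀ k s : ℕ, (Wu k s).card ≤ 2 ^ s * (k + s).choose s

/-- (CD) `|Wd k R| = (R+k choose k)`; `w' = (w mod g) + g u` with `u ≥ 0`, `∑ u ≤ R/g` -/
def S_CD : Prop := ∀ k R : ℕ, 1 ≤ k → (R ^ k ≤ k.factorial * (Wd k R).card) ∧
  ((Wd k R).card * k.factorial ≤ (R + k) ^ k) ∧
  (∀ g : ℕ, 1 ≤ g → ∀ w ∈ Wd k R, (((Wd k R).filter fun w' => ∀ i, (g : ℤ) ∣ w' i - w i).card : ℝ) *
    k.factorial ≤ ((R : ℝ) / g + k) ^ k)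

/-- (CU) lower bound: `w i = ± (1 + x i)`, `2^k (R choose k)`; upper bound `2^k (R+k choose k)`;
`w' = r + g u`, `|r i| ≤ g/2` fixed, so `∑ |u i| ≤ R/g + k/2` -/
def S_CU : Prop := ∀ k R : ℕ, 1 ≤ k → k ≤ R → (2 ^ k * (R - k) ^ k ≤ k.factorial * (Wu k R).card) ∧
  ((Wu k R).card * k.factorial ≤ 2 ^ k * (R + k) ^ k) ∧
  (∀ g : ℕ, 1 ≤ g → ∀ w ∈ Wu k R, (((Wu k R).filter fun w' => ∀ i, (g : ℤ) ∣ w' i - w i).card : ℝ) *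
    k.factorial ≤ 2 ^ k * ((R : ℝ) / g + 2 * k) ^ k)

/-- (BG) large `g`: `w' - w = g u`, `∑ |u i| ≤ 2R/g`; and the gcd of `w - w'` is at most `2R`.
`Wd k R ⊆ Wu k R`. -/
def S_BG : Prop := S_L1 → ∀ k R : ℕ, Wd k R ⊆ Wu k R ∧
  (∀ w ∈ Wu k R, ∀ w' ∈ Wu k R, w ≠ w' → (univ.gcd fun i => (w i - w' i).natAbs) ≤ 2 * R) ∧
  ∀ g : ℕ, 1 ≤ g → ∀ w ∈ Wu k R, ((Wu k R).filter fun w' => ∀ i, (g : ℤ) ∣ w' i - w i).card ≤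
    2 ^ (2 * R / g) * (k + 2 * R / g).choose (2 * R / g)

/-- (AN) from AN0, AN1, AN2 (helper34) -/
def S_AN : Prop := ∀ c ε δ lam : ℝ, 0 < c → 0 < ε → ε < 1 → 0 < δ → (lam = 1 ∨ lam = 2) →
  ∃ K : ℕ, ∀ (k n d R : ℕ) (Wc : ℝ) (B : ℕ → ℕ), K ≤ k → (K : ℝ) * k ≤ Real.log n → (d : ℝ) ≤ (1 - c) * k →
  (1 + ε) * (k * (n : ℝ) ^ (1 / (k : ℝ)) / (lam * Real.exp 1)) ≤ R + 1 → (R : ℝ) ≤ 2 * (k * (n : ℝ) ^ (1 / (k : ℝ))) →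
  lam ^ k * ((R : ℝ) - k) ^ k ≤ k.factorial * Wc →
  (∀ g : ℕ, 1 ≤ g → (B g : ℝ) * k.factorial ≤ lam ^ k * ((R : ℝ) / g + 2 * k) ^ k) →
  (∀ g : ℕ, 1 ≤ g → B g ≤ 2 ^ (2 * R / g) * (k + 2 * R / g).choose (2 * R / g)) →
  (n : ℝ) / Wc + ∑ g ∈ Icc 2 (2 * R), ((min (g ^ d) n : ℕ) : ℝ) * (B g : ℝ) / Wc ≤ δ

/-- (AN0) `(R - k) ≥ (1+ε) k x/(lam e) - k - 1` with `x = n^(1/k) → ∞`, and `k! ≤ e k (k/e)^k` -/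
def S_AN0 : Prop := ∀ ε lam : ℝ, 0 < ε → ε < 1 → (lam = 1 ∨ lam = 2) →
  ∃ K : ℕ, ∀ (k n R : ℕ) (Wc : ℝ), K ≤ k → (K : ℝ) * k ≤ Real.log n →
  (1 + ε) * (k * (n : ℝ) ^ (1 / (k : ℝ)) / (lam * Real.exp 1)) ≤ R + 1 →
  lam ^ k * ((R : ℝ) - k) ^ k ≤ k.factorial * Wc → 0 < Wc ∧ (n : ℝ) / Wc ≤ 3 * k / (1 + ε / 2) ^ k

/-- (AN1) `η = k/R ≤ 1/K`; the term is `≤ (g^(-c) (1 + 2 g η) / (1-η))^k`; sum over `g ≤ η^(-1/2)`, over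
`η^(-1/2) < g ≤ 1/η` by `(4 g^(-c))^k`, over `1/η < g ≤ η^(-(1+c/2))` each `≤ (4 η^(c/2))^k`, at most `2 η^(-2)` terms.
(`c ≤ 1` may be assumed: for `c > 1` there is no `d` with `k > 0`.) -/
def S_AN1 : Prop := ∀ c δ lam : ℝ, 0 < c → 0 < δ → (lam = 1 ∨ lam = 2) →
  ∃ K : ℕ, ∀ (k d R : ℕ) (Wc : ℝ) (B : ℕ → ℕ), K ≤ k → (K : ℝ) * k ≤ R → (d : ℝ) ≤ (1 - c) * k →
  lam ^ k * ((R : ℝ) - k) ^ k ≤ k.factorial * Wc →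
  (∀ g : ℕ, 1 ≤ g → (B g : ℝ) * k.factorial ≤ lam ^ k * ((R : ℝ) / g + 2 * k) ^ k) →
  ∑ g ∈ (Icc 2 (2 * R)).filter (fun g : ℕ => (g : ℝ) ≤ ((R : ℝ) / k) ^ (1 + c / 2)),
    (g : ℝ) ^ d * (B g : ℝ) / Wc ≤ δ

/-- (AN2) if the sum is not empty then `(R/k)^(c/2) < 2k`, so `R ≤ k (2k)^(2/c)`; `s = 2R/g ≤ 2k (R/k)^(-c/2) ≤ 2k K^(-c/2)`,
so `2^s (k+s choose s) ≤ (1+ε/8)^k` for `K` large, and there are at most `2R` terms. -/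
def S_AN2 : Prop := ∀ c ε δ : ℝ, 0 < c → 0 < ε → ε < 1 → 0 < δ →
  ∃ K : ℕ, ∀ (k n R : ℕ) (Wc : ℝ) (B : ℕ → ℕ), K ≤ k → (K : ℝ) * k ≤ R → 0 < Wc →
  (n : ℝ) / Wc ≤ 3 * k / (1 + ε / 2) ^ k →
  (∀ g : ℕ, 1 ≤ g → B g ≤ 2 ^ (2 * R / g) * (k + 2 * R / g).choose (2 * R / g)) →
  ∑ g ∈ (Icc 2 (2 * R)).filter (fun g : ℕ => ((R : ℝ) / k) ^ (1 + c / 2) < g),
    (n : ℝ) * (B g : ℝ) / Wc ≤ δ

/-- (LO) `k^k e^(-k) ≤ k!`, `(R + k)^k ≤ ((1-ε) n^(1/k)/(lam e) + 1)^k k^k` and `n^(1/k) → ∞` -/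
def S_LO : Prop := ∀ ε δ lam : ℝ, 0 < ε → ε < 1 → 0 < δ → (lam = 1 ∨ lam = 2) →
  ∃ K : ℕ, ∀ (k n R : ℕ) (Wc : ℝ), K ≤ k → (K : ℝ) * k ≤ Real.log n →
  (R : ℝ) ≤ (1 - ε) * (k * (n : ℝ) ^ (1 / (k : ℝ)) / (lam * Real.exp 1)) →
  Wc * k.factorial ≤ lam ^ k * ((R : ℝ) + k) ^ k → Wc / n ≤ δ

end Pool.Agent.X34.CY
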