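import Pool.Agent.X34.CY.Stm

set_option autoImplicit false

namespace Pool.Agent.X34.CY

open Finset Filter Topology

theorem exp_big (K a : ℕ) (h : 6 * (a + 2) ≤ K) : 2 * Real.exp 1 * ((a : ℝ) + 1) ≤ Real.exp K := by
  have h1 : Real.exp 1 < 2.7182818286 := Real.exp_one_lt_d9
  have h2 : (K : ℝ) + 1 ≤ Real.exp K := Real.add_one_le_exp _
  have h3 : 6 * ((a : ℝ) + 2) ≤ K := by exact_mod_cast h
  have h4 : (0 : ℝ) ≤ a := Nat.cast_nonneg a
  nlinarith [Real.exp_pos 1]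

theorem root_big (K k n : ℕ) (hk : 1 ≤ k) (hK : 1 ≤ K) (h : (K : ℝ) * k ≤ Real.log n) :
    Real.exp K ≤ (n : ℝ) ^ (1 / (k : ℝ)) := by
  have hk0 : (0 : ℝ) < k := by exact_mod_cast hk
  have hK0 : (0 : ℝ) < K := by exact_mod_cast hK
  have hlog : 0 < Real.log n := lt_of_lt_of_le (by positivity) h
  have hn : (0 : ℝ) < n := by
    rcases Nat.eq_zero_or_pos n with h0 | h0
    · subst h0; simp at hlog
    · exact_mod_cast h0
  rw [Real.rpow_def_of_pos hn]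
  apply Real.exp_le_exp.2
  rw [mul_one_div, le_div_iff₀ hk0]
  exact h

theorem an_of (h0 : S_AN0) (h1 : S_AN1) (h2 : S_AN2) : S_AN := by
  intro c ε δ lam hc hε hε1 hδ hlam
  obtain ⟨K0, H0⟩ := h0 ε lam hε hε1 hlam
  obtain ⟨K1, H1⟩ := h1 c (δ / 3) lam hc (by positivity) hlam
  obtain ⟨K2, H2⟩ := h2 c ε (δ / 3) hc hε hε1 (by positivity)
  have hlim : Tendsto (fun k : ℕ => (k : ℝ) ^ 1 / (1 + ε / 2) ^ k) atTop (𝓝 0) :=
    tendsto_pow_const_div_const_pow_of_one_lt 1 (by linarith)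
  obtain ⟨K3, hK3⟩ := eventually_atTop.1 (hlim.eventually (Iio_mem_nhds (show (0 : ℝ) < δ / 9 by positivity)))
  refine ⟨K0 + K3 + 6 * (K1 + K2 + 2) + 1, ?_⟩
  intro k n d R Wc B hk hlog hd hR1 hR2 hW hB1 hB2
  have hk1 : 1 ≤ k := by omega
  have hk0 : (0 : ℝ) < k := by exact_mod_cast hk1
  have hmono : ∀ a : ℕ, a ≤ K0 + K3 + 6 * (K1 + K2 + 2) + 1 → (a : ℝ) * k ≤ Real.log n := by
    intro a ha
    refine le_trans ?_ hlog
    have : (a : ℝ) ≤ ((K0 + K3 + 6 * (K1 + K2 + 2) + 1 : ℕ) : ℝ) := by exact_mod_cast ha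
    gcongr
  obtain ⟨hWc, hn⟩ := H0 k n R Wc (by omega) (hmono K0 (by omega)) hR1 hW
  have hroot := root_big (6 * (K1 + K2 + 2)) k n hk1 (by omega) (hmono _ (by omega))
  have hexp := exp_big (6 * (K1 + K2 + 2)) (K1 + K2) le_rfl
  have hx : 2 * Real.exp 1 * (((K1 + K2 : ℕ) : ℝ) + 1) ≤ (n : ℝ) ^ (1 / (k : ℝ)) := hexp.trans hroot
  have hRk : ((K1 + K2 : ℕ) : ℝ) * k ≤ R := by
    have he := Real.exp_pos 1
    have hl2 : lam ≤ 2 := by rcases hlam with h | h <;> rw [h] <;> norm_num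
    have hl0 : 0 < lam := by rcases hlam with h | h <;> rw [h] <;> norm_num
    have h3 : k * (((K1 + K2 : ℕ) : ℝ) + 1) ≤ k * (n : ℝ) ^ (1 / (k : ℝ)) / (lam * Real.exp 1) := by
      rw [le_div_iff₀ (by positivity)]
      calc k * (((K1 + K2 : ℕ) : ℝ) + 1) * (lam * Real.exp 1)
          ≤ k * (((K1 + K2 : ℕ) : ℝ) + 1) * (2 * Real.exp 1) := by gcongr
        _ = k * (2 * Real.exp 1 * (((K1 + K2 : ℕ) : ℝ) + 1)) := by ring
        _ ≤ k * (n : ℝ) ^ (1 / (k : ℝ)) := by gcongr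
    have h4 : (1 : ℝ) ≤ k := by exact_mod_cast hk1
    have h5 : k * (n : ℝ) ^ (1 / (k : ℝ)) / (lam * Real.exp 1) ≤
        (1 + ε) * (k * (n : ℝ) ^ (1 / (k : ℝ)) / (lam * Real.exp 1)) := by
      have : 0 ≤ k * (n : ℝ) ^ (1 / (k : ℝ)) / (lam * Real.exp 1) := by positivity
      nlinarith
    nlinarith
  have hRk1 : (K1 : ℝ) * k ≤ R := by
    refine le_trans ?_ hRk
    push_cast
    have : (0 : ℝ) ≤ K2 := Nat.cast_nonneg _
    nlinarith
  have hRk2 : (K2 : ℝ) * k ≤ R := by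
    refine le_trans ?_ hRk
    push_cast
    have : (0 : ℝ) ≤ K1 := Nat.cast_nonneg _
    nlinarith
  have A1 := H1 k d R Wc B (by omega) hRk1 hd hW hB1
  have A2 := H2 k n R Wc B (by omega) hRk2 hWc hn hB2
  have A3 : (n : ℝ) / Wc ≤ δ / 3 := by
    refine hn.trans ?_
    have := hK3 k (by omega)
    simp only [Set.mem_Iio, pow_one] at this
    have h6 : 3 * (k : ℝ) / (1 + ε / 2) ^ k = 3 * (k / (1 + ε / 2) ^ k) := by ring
    rw [h6]
    linarith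
  have A4 : ∑ g ∈ Icc 2 (2 * R), ((min (g ^ d) n : ℕ) : ℝ) * (B g : ℝ) / Wc ≤
      ∑ g ∈ (Icc 2 (2 * R)).filter (fun g : ℕ => (g : ℝ) ≤ ((R : ℝ) / k) ^ (1 + c / 2)),
        (g : ℝ) ^ d * (B g : ℝ) / Wc +
      ∑ g ∈ (Icc 2 (2 * R)).filter (fun g : ℕ => ((R : ℝ) / k) ^ (1 + c / 2) < g),
        (n : ℝ) * (B g : ℝ) / Wc := by
    rw [← Finset.sum_filter_add_sum_filter_not (Icc 2 (2 * R))
      (fun g : ℕ => (g : ℝ) ≤ ((R : ℝ) / k) ^ (1 + c / 2))]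
    simp only [not_le]
    apply add_le_add
    · apply Finset.sum_le_sum
      intro g _
      have : ((min (g ^ d) n : ℕ) : ℝ) ≤ (g : ℝ) ^ d := by exact_mod_cast min_le_left _ _
      gcongr
    · apply Finset.sum_le_sum
      intro g _
      have : ((min (g ^ d) n : ℕ) : ℝ) ≤ (n : ℝ) := by exact_mod_cast min_le_right _ _
      gcongr
  linarith

end Pool.Agent.X34.CY
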