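import Pool.Agent.X34.CY.Walk
import Pool.Agent.X34.CY.An

set_option autoImplicit false

namespace Pool.Agent.X34.CY

open Finset Filter Topology

/-- `1` for the directed and `2` for the undirected graph -/
noncomputable def lamv (dir : Bool) : ℝ := if dir then 1 else 2

/-- the value at which the distance concentrates -/
noncomputable def Dv (dir : Bool) (k n : ℕ) : ℝ := k * (n : ℝ) ^ (1 / (k : ℝ)) / (lamv dir * Real.exp 1)

/-- the probability that the distance is not within the factor `1 ± ε` of `D` -/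
noncomputable def bad (dir : Bool) (G : Type) [AddCommGroup G] (k : ℕ) (D ε : ℝ) : ℝ :=
  (Nat.card {zu : (Fin k → G) × G // ¬ Near dir zu.1 zu.2 D ε} : ℝ) / Nat.card ((Fin k → G) × G)

/-- the largest residue class -/
noncomputable def BB (dir : Bool) (k R g : ℕ) : ℕ :=
  (WW dir k R).sup fun w => ((WW dir k R).filter fun w' => ∀ i, (g : ℤ) ∣ w' i - w i).card

theorem WW_nonempty (dir : Bool) (k R : ℕ) : (WW dir k R).Nonempty :=
  ⟨0, by rw [mem_WW]; simp⟩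

theorem BB_ex (dir : Bool) (k R g : ℕ) : ∃ w ∈ WW dir k R, BB dir k R g =
    ((WW dir k R).filter fun w' => ∀ i, (g : ℤ) ∣ w' i - w i).card :=
  Finset.exists_mem_eq_sup _ (WW_nonempty dir k R) _

theorem WW_sub (hL1 : S_L1) (hBG : S_BG) (dir : Bool) (k R : ℕ) : WW dir k R ⊆ Wu k R := by
  cases dir with
  | true => simpa [WW] using (hBG hL1 k R).1
  | false => simp [WW]

theorem lam_cases (dir : Bool) : lamv dir = 1 ∨ lamv dir = 2 := by
  cases dir <;> simp [lamv]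

theorem facts_a (hCD : S_CD) (hCU : S_CU) (dir : Bool) (k R : ℕ) (hk : 1 ≤ k) (hR : k ≤ R) :
    lamv dir ^ k * ((R : ℝ) - k) ^ k ≤ k.factorial * ((WW dir k R).card : ℝ) := by
  have hR' : (k : ℝ) ≤ R := by exact_mod_cast hR
  cases dir with
  | true =>
    have h := (hCD k R hk).1
    have h' : (R : ℝ) ^ k ≤ k.factorial * ((Wd k R).card : ℝ) := by exact_mod_cast h
    simp only [lamv, WW, if_true, one_pow, one_mul]
    refine le_trans ?_ h'
    have h0 : (0 : ℝ) ≤ R - k := by linarith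
    have h1 : (0 : ℝ) ≤ k := Nat.cast_nonneg k
    gcongr
    linarith
  | false =>
    have h := (hCU k R hk hR).1
    have h' : (2 : ℝ) ^ k * (((R - k : ℕ) : ℝ)) ^ k ≤ k.factorial * ((Wu k R).card : ℝ) := by exact_mod_cast h
    rw [Nat.cast_sub hR] at h'
    simpa [lamv, WW] using h'

theorem facts_b (hCD : S_CD) (hCU : S_CU) (dir : Bool) (k R : ℕ) (hk : 1 ≤ k) (hR : k ≤ R) :
    ((WW dir k R).card : ℝ) * k.factorial ≤ lamv dir ^ k * ((R : ℝ) + k) ^ k := by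
  cases dir with
  | true =>
    have h := (hCD k R hk).2.1
    have h' : ((Wd k R).card : ℝ) * k.factorial ≤ ((R : ℝ) + k) ^ k := by exact_mod_cast h
    simpa [lamv, WW] using h'
  | false =>
    have h := (hCU k R hk hR).2.1
    have h' : ((Wu k R).card : ℝ) * k.factorial ≤ 2 ^ k * ((R : ℝ) + k) ^ k := by exact_mod_cast h
    simpa [lamv, WW] using h'

theorem facts_c (hCD : S_CD) (hCU : S_CU) (dir : Bool) (k R : ℕ) (hk : 1 ≤ k) (hR : k ≤ R) (g : ℕ) (hg : 1 ≤ g) :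
    (BB dir k R g : ℝ) * k.factorial ≤ lamv dir ^ k * ((R : ℝ) / g + 2 * k) ^ k := by
  obtain ⟨w, hw, hB⟩ := BB_ex dir k R g
  rw [hB]
  cases dir with
  | true =>
    simp only [WW, if_true] at hw ⊢
    have h := (hCD k R hk).2.2 g hg w hw
    simp only [lamv, if_true, one_pow, one_mul]
    refine h.trans ?_
    have h1 : (0 : ℝ) ≤ k := Nat.cast_nonneg k
    gcongr
    linarith
  | false =>
    simp only [WW, Bool.false_eq_true, if_false] at hw ⊢
    have h := (hCU k R hk hR).2.2 g hg w hw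
    simpa [lamv] using h

theorem facts_d (hL1 : S_L1) (hBG : S_BG) (dir : Bool) (k R g : ℕ) (hg : 1 ≤ g) :
    BB dir k R g ≤ 2 ^ (2 * R / g) * (k + 2 * R / g).choose (2 * R / g) := by
  obtain ⟨w, hw, hB⟩ := BB_ex dir k R g
  rw [hB]
  refine le_trans ?_ ((hBG hL1 k R).2.2 g hg w (WW_sub hL1 hBG dir k R hw))
  exact Finset.card_le_card (Finset.filter_subset_filter _ (WW_sub hL1 hBG dir k R))

theorem near_of (dir : Bool) {G : Type} [AddCommGroup G] {k : ℕ} (z : Fin k → G) (u : G) (D ε : ℝ) (hD : 0 < D)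
    (hε : 0 < ε) (R0 R1 : ℕ) (h0 : ∀ m : ℕ, (m : ℝ) < (1 - ε) * D → m ≤ R0) (h1 : (R1 : ℝ) ≤ (1 + ε) * D)
    (hlow : ∀ w ∈ WW dir k R0, ∑ i, w i • z i ≠ u) (hup : ∃ w ∈ WW dir k R1, ∑ i, w i • z i = u) :
    Near dir z u D ε := by
  classical
  obtain ⟨w, hw, hwu⟩ := hup
  rw [mem_WW] at hw
  have hnn : (0 : ℤ) ≤ ∑ i, |w i| := Finset.sum_nonneg fun i _ => abs_nonneg _
  obtain ⟨m, hm⟩ : ∃ m : ℕ, ∑ i, |w i| = (m : ℤ) := ⟨(∑ i, |w i|).toNat, by rw [Int.toNat_of_nonneg hnn]⟩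
  have hwalk : Walk dir z u m := by
    have := walk_mk dir z m w hw.1 hm
    rwa [hwu] at this
  have hmR : m ≤ R1 := by
    have := hw.2
    rw [hm] at this
    exact_mod_cast this
  have hex : ∃ m, Walk dir z u m := ⟨m, hwalk⟩
  refine ⟨Nat.find hex, ⟨Nat.find_spec hex, fun a ha => Nat.find_min' hex ha⟩, ?_⟩
  have hle : Nat.find hex ≤ R1 := (Nat.find_min' hex hwalk).trans hmR
  have hge : (1 - ε) * D ≤ (Nat.find hex : ℝ) := by
    by_contra hcon
    push Not at hcon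
    have hR0 := h0 _ hcon
    obtain ⟨w', a1, a2, a3⟩ := walk_elim dir z u _ (Nat.find_spec hex)
    refine hlow w' ?_ a3
    rw [mem_WW]
    exact ⟨a1, a2.trans (by exact_mod_cast hR0)⟩
  have hle' : (Nat.find hex : ℝ) ≤ (1 + ε) * D := le_trans (by exact_mod_cast hle) h1
  rw [abs_le]
  constructor
  · have : 1 - ε ≤ (Nat.find hex : ℝ) / D := by rw [le_div_iff₀ hD]; exact hge
    linarith
  · have : (Nat.find hex : ℝ) / D ≤ 1 + ε := by rw [div_le_iff₀ hD]; exact hle'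
    linarith

theorem finite_bound (hGRP : S_GRP) (hSM : S_SM) (hL1 : S_L1) (hCD : S_CD) (hCU : S_CU) (hBG : S_BG) (hAN : S_AN)
    (hLO : S_LO) (dir : Bool) (c ε δ : ℝ) (hc : 0 < c) (hε : 0 < ε) (hε1 : ε < 1) (hδ : 0 < δ) :
    ∃ K : ℕ, ∀ (G : Type) [AddCommGroup G] [Finite G] (k : ℕ), K ≤ k → (K : ℝ) * k ≤ Real.log (Nat.card G) →
      c * k ≤ (k : ℝ) - dG G → bad dir G k (Dv dir k (Nat.card G)) ε ≤ δ := by
  classical
  obtain ⟨K1, H1⟩ := hAN c ε (δ / 2) (lamv dir) hc hε hε1 (by positivity) (lam_cases dir)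
  obtain ⟨K2, H2⟩ := hLO ε (δ / 2) (lamv dir) hε hε1 (by positivity) (lam_cases dir)
  obtain ⟨a, ha⟩ := exists_nat_gt (1 / (1 - ε))
  refine ⟨K1 + K2 + 6 * (a + 2), ?_⟩
  intro G _ _ k hk hlog hd
  letI : Fintype G := Fintype.ofFinite G
  rw [Nat.card_eq_fintype_card] at hlog ⊢
  obtain ⟨n, hn⟩ : ∃ n, n = Fintype.card G := ⟨_, rfl⟩
  rw [← hn] at hlog ⊢
  have hk1 : 1 ≤ k := by omega
  have hk0 : (0 : ℝ) < k := by exact_mod_cast hk1
  have hmono : ∀ b : ℕ, b ≤ K1 + K2 + 6 * (a + 2) → (b : ℝ) * k ≤ Real.log n := by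
    intro b hb
    refine le_trans ?_ hlog
    have : (b : ℝ) ≤ ((K1 + K2 + 6 * (a + 2) : ℕ) : ℝ) := by exact_mod_cast hb
    gcongr
  have hn0 : 0 < n := by rw [hn]; exact Fintype.card_pos
  have hn0' : (0 : ℝ) < n := by exact_mod_cast hn0
  have hroot := root_big (6 * (a + 2)) k n hk1 (by omega) (hmono _ (by omega))
  have hx : 2 * Real.exp 1 * ((a : ℝ) + 1) ≤ (n : ℝ) ^ (1 / (k : ℝ)) := (exp_big _ a le_rfl).trans hroot
  have he := Real.exp_pos 1
  have he2 : 2 < Real.exp 1 := by linarith [Real.exp_one_gt_d9]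
  have hl2 : lamv dir ≤ 2 := by rcases lam_cases dir with h | h <;> rw [h] <;> norm_num
  have hl1 : 1 ≤ lamv dir := by rcases lam_cases dir with h | h <;> rw [h]; norm_num
  have hl0 : 0 < lamv dir := by linarith
  obtain ⟨D, hD⟩ : ∃ D, D = Dv dir k n := ⟨_, rfl⟩
  have hDk : k * ((a : ℝ) + 1) ≤ D := by
    rw [hD, Dv, le_div_iff₀ (by positivity)]
    calc k * ((a : ℝ) + 1) * (lamv dir * Real.exp 1) ≤ k * ((a : ℝ) + 1) * (2 * Real.exp 1) := by gcongr
      _ = k * (2 * Real.exp 1 * ((a : ℝ) + 1)) := by ring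
      _ ≤ k * (n : ℝ) ^ (1 / (k : ℝ)) := by gcongr
  have ha0 : (0 : ℝ) ≤ a := Nat.cast_nonneg a
  have hD0 : 0 < D := lt_of_lt_of_le (by positivity) hDk
  have h1e : 0 < 1 - ε := by linarith
  have hlowk : (k : ℝ) ≤ (1 - ε) * D := by
    have h2 : 1 < (1 - ε) * a := by
      rw [div_lt_iff₀ h1e] at ha
      linarith
    have h3 : (1 - ε) * (k * ((a : ℝ) + 1)) ≤ (1 - ε) * D := by gcongr
    nlinarith
  obtain ⟨R0, hR0⟩ : ∃ R0, R0 = ⌊(1 - ε) * D⌋₊ := ⟨_, rfl⟩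
  obtain ⟨R1, hR1⟩ : ∃ R1, R1 = ⌊(1 + ε) * D⌋₊ := ⟨_, rfl⟩
  have hR0le : (R0 : ℝ) ≤ (1 - ε) * D := by rw [hR0]; exact Nat.floor_le (by positivity)
  have hR1le : (R1 : ℝ) ≤ (1 + ε) * D := by rw [hR1]; exact Nat.floor_le (by positivity)
  have hR1ge : (1 + ε) * D ≤ R1 + 1 := by rw [hR1]; exact (Nat.lt_floor_add_one _).le
  have hkR0 : k ≤ R0 := by rw [hR0]; exact Nat.le_floor hlowk
  have hkR1 : k ≤ R1 := by
    rw [hR1]
    apply Nat.le_floor
    nlinarith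
  have hR12 : (R1 : ℝ) ≤ 2 * (k * (n : ℝ) ^ (1 / (k : ℝ))) := by
    have h4 : D ≤ k * (n : ℝ) ^ (1 / (k : ℝ)) := by
      rw [hD, Dv]
      apply div_le_self (by positivity)
      nlinarith
    have h5 : (1 + ε) * D ≤ 2 * D := by nlinarith
    linarith
  have hd' : ((dG G : ℕ) : ℝ) ≤ (1 - c) * k := by linarith
  have HA := H1 k n (dG G) R1 ((WW dir k R1).card : ℝ) (BB dir k R1) (by omega) (hmono _ (by omega)) hd'
    (by rw [hD, Dv] at hR1ge; exact hR1ge) hR12 (facts_a hCD hCU dir k R1 hk1 hkR1)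
    (fun g hg => facts_c hCD hCU dir k R1 hk1 hkR1 g hg) (fun g hg => facts_d hL1 hBG dir k R1 g hg)
  have HB := H2 k n R0 ((WW dir k R0).card : ℝ) (by omega) (hmono _ (by omega))
    (by rw [hD, Dv] at hR0le; exact hR0le) (facts_b hCD hCU dir k R0 hk1 hkR0)
  have HS := hSM hGRP G k (WW dir k R1) (2 * R1) (BB dir k R1) (WW_nonempty dir k R1)
    (fun w hw w' hw' hne => (hBG hL1 k R1).2.1 w (WW_sub hL1 hBG dir k R1 hw) w' (WW_sub hL1 hBG dir k R1 hw') hne)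
    (fun g _ w hw => Finset.le_sup (f := fun w => ((WW dir k R1).filter fun w' => ∀ i, (g : ℤ) ∣ w' i - w i).card) hw)
  rw [← hn] at HS
  -- the second event
  have HC : ((univ.filter fun zu : (Fin k → G) × G => ∃ w ∈ WW dir k R0, ∑ i, w i • zu.1 i = zu.2).card : ℝ) ≤
      ((WW dir k R0).card : ℝ) * (n : ℝ) ^ k := by
    have h6 : (univ.filter fun zu : (Fin k → G) × G => ∃ w ∈ WW dir k R0, ∑ i, w i • zu.1 i = zu.2) ⊆
        ((WW dir k R0) ×ˢ (univ : Finset (Fin k → G))).image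
          (fun p : (Fin k → ℤ) × (Fin k → G) => (p.2, ∑ i, p.1 i • p.2 i)) := by
      rintro ⟨z, u⟩ hzu
      obtain ⟨w, hw, hwu⟩ := (mem_filter.1 hzu).2
      rw [mem_image]
      exact ⟨(w, z), by simp [hw], by simp only [Prod.mk.injEq, true_and]; exact hwu⟩
    have h7 := (Finset.card_le_card h6).trans Finset.card_image_le
    rw [Finset.card_product, Finset.card_univ, Fintype.card_fun, Fintype.card_fin, ← hn] at h7
    exact_mod_cast h7
  -- the bad event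
  have Hbad : (Nat.card {zu : (Fin k → G) × G // ¬ Near dir zu.1 zu.2 D ε} : ℝ) ≤
      (n : ℝ) ^ (k + 1) * (δ / 2) + ((WW dir k R0).card : ℝ) * (n : ℝ) ^ k := by
    rw [Nat.card_eq_fintype_card, Fintype.card_subtype]
    have h8 : (univ.filter fun zu : (Fin k → G) × G => ¬ Near dir zu.1 zu.2 D ε) ⊆
        (univ.filter fun zu : (Fin k → G) × G => ∀ w ∈ WW dir k R1, ∑ i, w i • zu.1 i ≠ zu.2) ∪
        (univ.filter fun zu : (Fin k → G) × G => ∃ w ∈ WW dir k R0, ∑ i, w i • zu.1 i = zu.2) := by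
      rintro ⟨z, u⟩ hzu
      rw [mem_union, mem_filter, mem_filter]
      by_contra hcon
      rw [not_or] at hcon
      obtain ⟨c1, c2⟩ := hcon
      have c1' : ∃ w ∈ WW dir k R1, ∑ i, w i • z i = u := by
        by_contra h9
        push Not at h9
        exact c1 ⟨mem_univ _, h9⟩
      have c2' : ∀ w ∈ WW dir k R0, ∑ i, w i • z i ≠ u := by
        intro w hw h9
        exact c2 ⟨mem_univ _, w, hw, h9⟩
      refine (mem_filter.1 hzu).2 (near_of dir z u D ε hD0 hε R0 R1 ?_ hR1le c2' c1')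
      intro m hm
      rw [hR0]
      exact Nat.le_floor hm.le
    have h9 := (Finset.card_le_card h8).trans (Finset.card_union_le _ _)
    have h10 : (((univ.filter fun zu : (Fin k → G) × G => ¬ Near dir zu.1 zu.2 D ε).card : ℕ) : ℝ) ≤
        ((univ.filter fun zu : (Fin k → G) × G => ∀ w ∈ WW dir k R1, ∑ i, w i • zu.1 i ≠ zu.2).card : ℝ) +
        ((univ.filter fun zu : (Fin k → G) × G => ∃ w ∈ WW dir k R0, ∑ i, w i • zu.1 i = zu.2).card : ℝ) := by
      exact_mod_cast h9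
    refine h10.trans (add_le_add (HS.trans ?_) HC)
    gcongr
  have Hcard : (Nat.card ((Fin k → G) × G) : ℝ) = (n : ℝ) ^ (k + 1) := by
    rw [Nat.card_eq_fintype_card, Fintype.card_prod, Fintype.card_fun, Fintype.card_fin, ← hn]
    push_cast
    ring
  unfold bad
  rw [← hD, Hcard, div_le_iff₀ (by positivity)]
  refine Hbad.trans ?_
  have h11 : ((WW dir k R0).card : ℝ) ≤ δ / 2 * n := by
    rwa [div_le_iff₀ hn0'] at HB
  calc (n : ℝ) ^ (k + 1) * (δ / 2) + ((WW dir k R0).card : ℝ) * (n : ℝ) ^ k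
      ≤ (n : ℝ) ^ (k + 1) * (δ / 2) + (δ / 2 * n) * (n : ℝ) ^ k := by gcongr
    _ = δ * (n : ℝ) ^ (k + 1) := by ring

theorem bad_mono (dir : Bool) (G : Type) [AddCommGroup G] [Finite G] (k : ℕ) (D ε ε' : ℝ) (h : ε' ≤ ε) :
    bad dir G k D ε ≤ bad dir G k D ε' := by
  unfold bad
  gcongr
  apply Nat.card_le_card_of_injective
    (fun x : {zu : (Fin k → G) × G // ¬ Near dir zu.1 zu.2 D ε} =>
      (⟨x.1, fun hx => x.2 (by
        obtain ⟨m, h1, h2⟩ := hx
        exact ⟨m, h1, h2.trans h⟩)⟩ : {zu : (Fin k → G) × G // ¬ Near dir zu.1 zu.2 D ε'}))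
  intro x y hxy
  apply Subtype.ext
  simpa using congrArg Subtype.val hxy

theorem main_of (hGRP : S_GRP) (hSM : S_SM) (hL1 : S_L1) (hCD : S_CD) (hCU : S_CU) (hBG : S_BG) (hAN : S_AN)
    (hLO : S_LO) (dir : Bool) (G : ℕ → Type) [∀ N, AddCommGroup (G N)] [∀ N, Finite (G N)] (k : ℕ → ℕ) (c : ℝ)
    (hc : 0 < c) (hk : Tendsto k atTop atTop)
    (hlog : Tendsto (fun N => (k N : ℝ) / Real.log (Nat.card (G N))) atTop (𝓝 0))
    (hG : Tendsto (fun N => Nat.card (G N)) atTop atTop)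
    (hd : ∀ᶠ N in atTop, c * k N ≤ (k N : ℝ) - dG (G N)) (ε : ℝ) (hε : 0 < ε) :
    Tendsto (fun N => bad dir (G N) (k N) (Dv dir (k N) (Nat.card (G N))) ε) atTop (𝓝 0) := by
  rw [Metric.tendsto_atTop]
  intro δ hδ
  have hε' : 0 < min ε (1 / 2) := by positivity
  have hε1 : min ε (1 / 2) < 1 := (min_le_right _ _).trans_lt (by norm_num)
  obtain ⟨K, hK⟩ := finite_bound hGRP hSM hL1 hCD hCU hBG hAN hLO dir c (min ε (1 / 2)) (δ / 2) hc hε' hε1
    (by positivity)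
  have e1 : ∀ᶠ N in atTop, (k N : ℝ) / Real.log (Nat.card (G N)) < 1 / ((K : ℝ) + 1) :=
    hlog.eventually (gt_mem_nhds (by positivity))
  have e2 : ∀ᶠ N in atTop, 2 ≤ Nat.card (G N) := hG.eventually_ge_atTop 2
  have e3 : ∀ᶠ N in atTop, K ≤ k N := hk.eventually_ge_atTop K
  obtain ⟨N0, hN0⟩ := eventually_atTop.1 (((e1.and e2).and e3).and hd)
  refine ⟨N0, fun N hN => ?_⟩
  obtain ⟨⟨⟨a1, a2⟩, a3⟩, a4⟩ := hN0 N hN
  have hlogp : 0 < Real.log (Nat.card (G N)) := Real.log_pos (by exact_mod_cast a2)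
  have a5 : (K : ℝ) * k N ≤ Real.log (Nat.card (G N)) := by
    rw [div_lt_div_iff₀ hlogp (by positivity)] at a1
    have : (0 : ℝ) ≤ k N := Nat.cast_nonneg _
    nlinarith
  have h := (bad_mono dir (G N) (k N) (Dv dir (k N) (Nat.card (G N))) ε (min ε (1 / 2)) (min_le_left _ _)).trans
    (hK (G N) (k N) a3 a5 a4)
  have h0 : 0 ≤ bad dir (G N) (k N) (Dv dir (k N) (Nat.card (G N))) ε := by unfold bad; positivity
  rw [Real.dist_eq, sub_zero, abs_of_nonneg h0]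
  linarith

end Pool.Agent.X34.CY
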