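import Pool.Agent.X34.CY.Stm

set_option autoImplicit false

namespace Pool.Agent.X34.CY

open Finset

/-- a walk of length `m` from `0` to `u` in the Cayley graph (directed if `dir = true`) -/
def Walk (dir : Bool) {G : Type} [AddCommGroup G] {k : ℕ} (z : Fin k → G) (u : G) (m : ℕ) : Prop :=
  ∃ p : ℕ → G, p 0 = 0 ∧ p m = u ∧
    ∀ i < m, ∃ j, p (i + 1) = p i + z j ∨ (dir = false ∧ p (i + 1) = p i - z j)

/-- the distance from `0` to `u` is `m` with `|m/D - 1| ≤ ε` -/
def Near (dir : Bool) {G : Type} [AddCommGroup G] {k : ℕ} (z : Fin k → G) (u : G) (D ε : ℝ) : Prop :=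
  ∃ m : ℕ, IsLeast {m | Walk dir z u m} m ∧ |(m : ℝ) / D - 1| ≤ ε

variable {G : Type} [AddCommGroup G] {k : ℕ}

theorem Walk.zero (dir : Bool) (z : Fin k → G) : Walk dir z 0 0 := ⟨fun _ => 0, rfl, rfl, by simp⟩

theorem Walk.snoc {dir : Bool} {z : Fin k → G} {u v : G} {m : ℕ} (h : Walk dir z u m) (j : Fin k)
    (hv : v = u + z j ∨ (dir = false ∧ v = u - z j)) : Walk dir z v (m + 1) := by
  obtain ⟨p, h0, hm, hs⟩ := h
  refine ⟨fun t => if t ≤ m then p t else v, by simpa using h0, by simp, ?_⟩
  intro i hi
  rcases Nat.lt_succ_iff_lt_or_eq.1 hi with h | h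
  · obtain ⟨j', hj⟩ := hs i h
    refine ⟨j', ?_⟩
    have h1 : i + 1 ≤ m := h
    have h2 : i ≤ m := h.le
    simpa [h1, h2] using hj
  · subst h
    refine ⟨j, ?_⟩
    simpa [hm] using hv

theorem walk_mk (dir : Bool) (z : Fin k → G) : ∀ (m : ℕ) (w : Fin k → ℤ), (dir = true → ∀ i, 0 ≤ w i) →
    ∑ i, |w i| = (m : ℤ) → Walk dir z (∑ i, w i • z i) m := by
  classical
  intro m
  induction m with
  | zero =>
    intro w _ hw
    have h0 : ∀ i, w i = 0 := by
      intro i
      have := (Finset.sum_eq_zero_iff_of_nonneg (fun i _ => abs_nonneg (w i))).1 (by simpa using hw) i (mem_univ i)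
      simpa using this
    simp only [h0, zero_smul, sum_const_zero]
    exact Walk.zero dir z
  | succ m ih =>
    intro w hd hw
    obtain ⟨i, hi⟩ : ∃ i, w i ≠ 0 := by
      by_contra hcon
      push Not at hcon
      simp [hcon] at hw
      omega
    have e1 : ∀ a : ℤ, ∑ j, |Function.update w i a j| = ∑ j, |w j| - |w i| + |a| := by
      intro a
      rw [← Finset.add_sum_erase _ _ (mem_univ i), ← Finset.add_sum_erase _ (fun j => |w j|) (mem_univ i)]
      rw [Finset.sum_congr rfl (g := fun j => |w j|) (fun j hj => by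
        rw [Function.update_of_ne (Finset.ne_of_mem_erase hj)])]
      simp
      ring
    have e2 : ∀ a : ℤ, ∑ j, Function.update w i a j • z j = ∑ j, w j • z j - w i • z i + a • z i := by
      intro a
      rw [← Finset.add_sum_erase _ _ (mem_univ i), ← Finset.add_sum_erase _ (fun j => w j • z j) (mem_univ i)]
      rw [Finset.sum_congr rfl (g := fun j => w j • z j) (fun j hj => by
        rw [Function.update_of_ne (Finset.ne_of_mem_erase hj)])]
      simp only [Function.update_self]
      abel
    rcases lt_or_gt_of_ne hi with hneg | hpos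
    · have hdf : dir = false := by
        by_contra hcon
        have := hd (by simpa using hcon) i
        omega
      have h := ih (Function.update w i (w i + 1)) (by simp [hdf]) (by
        rw [e1, hw, abs_of_neg hneg, abs_of_nonpos (by omega : w i + 1 ≤ 0)]
        push_cast
        ring)
      refine h.snoc i (Or.inr ⟨hdf, ?_⟩)
      rw [e2, add_smul, one_smul]
      abel
    · have h := ih (Function.update w i (w i - 1)) (by
          intro hdt j
          by_cases hj : j = i
          · subst hj; simp; omega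
          · rw [Function.update_of_ne hj]; exact hd hdt j) (by
        rw [e1, hw, abs_of_pos hpos, abs_of_nonneg (by omega : 0 ≤ w i - 1)]
        push_cast
        ring)
      refine h.snoc i (Or.inl ?_)
      rw [e2, sub_smul, one_smul]
      abel

theorem walk_elim (dir : Bool) (z : Fin k → G) (u : G) (m : ℕ) (h : Walk dir z u m) :
    ∃ w : Fin k → ℤ, (dir = true → ∀ i, 0 ≤ w i) ∧ ∑ i, |w i| ≤ (m : ℤ) ∧ ∑ i, w i • z i = u := by
  classical
  obtain ⟨p, h0, hm, hs⟩ := h
  have key : ∀ t ≤ m, ∃ w : Fin k → ℤ, (dir = true → ∀ i, 0 ≤ w i) ∧ ∑ i, |w i| ≤ (t : ℤ) ∧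
      ∑ i, w i • z i = p t := by
    intro t
    induction t with
    | zero => intro _; exact ⟨0, by simp, by simp, by simp [h0]⟩
    | succ t ih =>
      intro ht
      obtain ⟨w, h1, h2, h3⟩ := ih (by omega)
      obtain ⟨j, hj⟩ := hs t (by omega)
      have e1 : ∀ a : ℤ, ∑ i, |(w + (Pi.single j a : Fin k → ℤ)) i| ≤ ∑ i, |w i| + |a| := by
        intro a
        calc ∑ i, |(w + (Pi.single j a : Fin k → ℤ)) i| ≤ ∑ i, (|w i| + |(Pi.single j a : Fin k → ℤ) i|) :=
              Finset.sum_le_sum fun i _ => abs_add_le _ _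
          _ = ∑ i, |w i| + |a| := by
              rw [Finset.sum_add_distrib]
              congr 1
              rw [Finset.sum_eq_single j]
              · simp
              · intro b _ hb; simp [hb]
              · simp
      have e2 : ∀ a : ℤ, ∑ i, (w + (Pi.single j a : Fin k → ℤ)) i • z i = ∑ i, w i • z i + a • z j := by
        intro a
        simp only [Pi.add_apply, add_smul, Finset.sum_add_distrib]
        congr 1
        rw [Finset.sum_eq_single j]
        · simp
        · intro b _ hb; simp [hb]
        · simp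
      rcases hj with hj | ⟨hdf, hj⟩
      · refine ⟨w + (Pi.single j 1 : Fin k → ℤ), ?_, ?_, ?_⟩
        · intro hdt i
          have := h1 hdt i
          by_cases hij : i = j
          · subst hij; simp; omega
          · simp [hij, this]
        · refine (e1 1).trans ?_
          push_cast
          simp
          omega
        · rw [e2, h3, hj, one_smul]
      · refine ⟨w + (Pi.single j (-1) : Fin k → ℤ), ?_, ?_, ?_⟩
        · simp [hdf]
        · refine (e1 (-1)).trans ?_
          push_cast
          simp
          omega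
        · rw [e2, h3, hj, neg_smul, one_smul, sub_eq_add_neg]
  obtain ⟨w, h1, h2, h3⟩ := key m le_rfl
  exact ⟨w, h1, h2, h3.trans hm⟩

/-- the region -/
noncomputable def WW (dir : Bool) (k R : ℕ) : Finset (Fin k → ℤ) := if dir then Wd k R else Wu k R

theorem mem_WW (dir : Bool) (k R : ℕ) (w : Fin k → ℤ) :
    w ∈ WW dir k R ↔ (dir = true → ∀ i, 0 ≤ w i) ∧ ∑ i, |w i| ≤ (R : ℤ) := by
  cases dir with
  | true =>
    simp only [WW, Wd, if_true, mem_filter, Fintype.mem_piFinset, mem_Icc, forall_const]
    constructor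
    · rintro ⟨h1, h2⟩
      refine ⟨fun i => (h1 i).1, ?_⟩
      rwa [Finset.sum_congr rfl fun i _ => abs_of_nonneg (h1 i).1]
    · rintro ⟨h1, h2⟩
      rw [Finset.sum_congr rfl fun i _ => abs_of_nonneg (h1 i)] at h2
      refine ⟨fun i => ⟨h1 i, ?_⟩, h2⟩
      exact (Finset.single_le_sum (fun j _ => h1 j) (mem_univ i)).trans h2
  | false =>
    simp only [WW, Wu, Bool.false_eq_true, if_false, mem_filter, Fintype.mem_piFinset, mem_Icc,
      IsEmpty.forall_iff, true_and]
    constructor
    · exact fun h => h.2
    · intro h2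
      refine ⟨fun i => ?_, h2⟩
      have := (Finset.single_le_sum (fun j _ => abs_nonneg (w j)) (mem_univ i)).trans h2
      exact abs_le.1 this

end Pool.Agent.X34.CY
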